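import Pool.Agent.MP_05b6ce_an.Sh.Gev
import Pool.Agent.MP_05b6ce_an.Sh.Pos

set_option autoImplicit false

namespace Pool.Agent.Results.MP_05b6ce_an.GevreyThreshold

/-- a is cyclic for the shift on square summable sequences, that is, outer. -/
def Cyclic (a : ℕ → ℂ) : Prop :=
  ∀ g : ℕ → ℂ, Summable (fun n => ‖g n‖ ^ 2) →
    (∀ j : ℕ, ∑' n, a n * starRingEnd ℂ (g (n + j)) = 0) → g = 0

/-- The sequences b and a form a Pythagorean pair with quotient φ, all given by Taylor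
coefficients. -/
def IsPair (a b φ : ℕ → ℂ) : Prop :=
  (∀ g : ℕ → ℂ, Summable (fun n => ‖g n‖ ^ 2) →
    Summable (fun n => ‖∑ k ∈ Finset.range (n+1), a k * g (n-k)‖ ^ 2) ∧
    Summable (fun n => ‖∑ k ∈ Finset.range (n+1), b k * g (n-k)‖ ^ 2) ∧
    (∑' n, ‖∑ k ∈ Finset.range (n+1), a k * g (n-k)‖ ^ 2) +
      (∑' n, ‖∑ k ∈ Finset.range (n+1), b k * g (n-k)‖ ^ 2) = ∑' n, ‖g n‖ ^ 2) ∧
  Cyclic a ∧ 0 < (a 0).re ∧ (a 0).im = 0 ∧
  ∀ n, ∑ k ∈ Finset.range (n+1), a k * φ (n-k) = b n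

/-- The numbers whose supremum is the squared norm of f in the de Branges-Rovnyak space. -/
def vals (b f : ℕ → ℂ) : Set ℝ :=
  {x : ℝ | ∃ g : ℕ → ℂ, Summable (fun n => ‖g n‖ ^ 2) ∧
    x = (∑' n, ‖f n + ∑ k ∈ Finset.range (n+1), b k * g (n-k)‖ ^ 2) - ∑' n, ‖g n‖ ^ 2}

/-- The coefficient formula holds for all pairs and all f majorised by a nonincreasing
sequence w exactly when w decays like the exponential of a negative multiple of the
square root of the index. -/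
theorem result (w : ℕ → ℝ) (hw0 : ∀ k, 0 ≤ w k) (hw1 : Antitone w) :
    List.TFAE [
      ∃ γ > 0, ∃ C : ℝ, ∀ k : ℕ, w k ≤ C * Real.exp (-(γ * Real.sqrt k)),
      ∀ a b φ : ℕ → ℂ, IsPair a b φ → ∀ f c : ℕ → ℂ, (∀ k, ‖f k‖ ≤ w k) →
        Summable (fun n => ‖f n‖ ^ 2) →
        (∀ m, Filter.Tendsto (fun N => ∑ n ∈ Finset.range N, starRingEnd ℂ (φ n) * f (m+n))
          Filter.atTop (nhds (c m))) →
        Summable (fun m => ‖c m‖ ^ 2) →
        IsLUB (vals b f) ((∑' m, ‖f m‖ ^ 2) + ∑' m, ‖c m‖ ^ 2),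
      ∀ a b φ : ℕ → ℂ, IsPair a b φ → Cyclic b → (∀ k, (φ k).im = 0 ∧ 0 ≤ (φ k).re) →
        ∀ f : ℕ → ℂ, (∀ k, ‖f k‖ ≤ w k) → Summable (fun n => ‖f n‖ ^ 2) →
        (∀ m, ∃ D, ∀ N, D ≤ N → ∑ n ∈ Finset.range N, starRingEnd ℂ (φ n) * f (m+n) = 0) →
        BddAbove (vals b f)] := by
  tfae_have 1 → 2 := by
    rintro ⟨γ, hγ, C, hC⟩ a b φ ⟨h1, h2, -, -, h3⟩ f c hf hf2 hc hc2
    exact Pool.Agent.MP_05b6ce_an.Sh.positive a b φ h1 h2 h3 f c γ C hγ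
      (fun k => (hf k).trans (hC k)) hf2 hc hc2
  tfae_have 2 → 3 := by
    intro h a b φ hp _ _ f hf hf2 hc
    refine (h a b φ hp f (fun _ => 0) hf hf2 (fun m => ?_) (by simp)).bddAbove
    obtain ⟨D, hD⟩ := hc m
    refine tendsto_const_nhds.congr' ?_
    filter_upwards [Filter.eventually_ge_atTop D] with N hN
    exact (hD N hN).symm
  tfae_have 3 → 1 := by
    intro h
    by_contra hn
    obtain ⟨a, b, φ, f, h1, h2, h3, h4, h5, h6, -, h7, h8, h9, h10, h11⟩ :=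
      Pool.Agent.MP_05b6ce_an.Sh.main2 w hw0 hw1 fun c hc C => by
        by_contra h'
        exact hn ⟨c, hc, C, fun k => not_lt.1 fun hk => h' ⟨k, hk⟩⟩
    exact h11 (h a b φ ⟨h1, h2, h3, h4, h5⟩ h6 h7 f h9 h8 h10)
  tfae_finish

end Pool.Agent.Results.MP_05b6ce_an.GevreyThreshold
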