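import Pool.Agent.MP_05b6ce_an.Sh.Lim

set_option autoImplicit false

namespace Pool.Agent.Results.MP_05b6ce_an.SharpPhi

/-- The hypothesis that phi lies in the Hardy space H2 cannot be weakened in the scale of
coefficient majorants, of Orlicz classes or of the spaces Hp, even for outer b and
phi of positive real part; and it is membership in H(b) that fails. -/
theorem result (w : ℕ → ℝ) (hw0 : ∀ k, 0 ≤ w k) (hw1 : Antitone w)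
    (hw2 : ¬ Summable fun k => w k ^ 2)
    (Φ : ℝ → ℝ) (hΦ : ∀ ε > 0, ∃ C, ∀ t ≥ 0, Φ t ≤ ε * t ^ 2 + C) :
    ∃ a b φ f : ℕ → ℂ,
      (∀ g : ℕ → ℂ, Summable (fun n => ‖g n‖ ^ 2) →
        Summable (fun n => ‖∑ k ∈ Finset.range (n+1), a k * g (n-k)‖ ^ 2) ∧
        Summable (fun n => ‖∑ k ∈ Finset.range (n+1), b k * g (n-k)‖ ^ 2) ∧
        (∑' n, ‖∑ k ∈ Finset.range (n+1), a k * g (n-k)‖ ^ 2) +
          (∑' n, ‖∑ k ∈ Finset.range (n+1), b k * g (n-k)‖ ^ 2) = ∑' n, ‖g n‖ ^ 2) ∧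
      (∀ g : ℕ → ℂ, Summable (fun n => ‖g n‖ ^ 2) →
        (∀ j : ℕ, ∑' n, a n * starRingEnd ℂ (g (n + j)) = 0) → g = 0) ∧
      0 < (a 0).re ∧ (a 0).im = 0 ∧
      (∀ n, ∑ k ∈ Finset.range (n+1), a k * φ (n-k) = b n) ∧
      (∀ g : ℕ → ℂ, Summable (fun n => ‖g n‖ ^ 2) →
        (∀ j : ℕ, ∑' n, b n * starRingEnd ℂ (g (n + j)) = 0) → g = 0) ∧
      φ 0 = 1 ∧ (∀ k, 1 ≤ k → (φ k).im = 0 ∧ 0 ≤ (φ k).re ∧ (φ k).re ≤ w k) ∧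
      (∀ z : ℂ, ‖z‖ < 1 → 1 / 2 ≤ (∑' k, φ k * z ^ k).re) ∧
      (∃ B : ℝ, ∀ r : ℝ, 0 ≤ r → r < 1 → ∫⁻ θ in Set.Ioc (0 : ℝ) (2 * Real.pi),
        ENNReal.ofReal (Φ ‖∑' k, φ k * ((r : ℂ) * Complex.exp (θ * Complex.I)) ^ k‖)
          ≤ ENNReal.ofReal B) ∧
      (∀ p : ℝ, 0 < p → p < 2 →
        ∃ B : ℝ, ∀ r : ℝ, 0 ≤ r → r < 1 → ∫⁻ θ in Set.Ioc (0 : ℝ) (2 * Real.pi),
          ENNReal.ofReal (‖∑' k, φ k * ((r : ℂ) * Complex.exp (θ * Complex.I)) ^ k‖ ^ p)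
            ≤ ENNReal.ofReal B) ∧
      Summable (fun n => ‖f n‖ ^ 2) ∧
      (∀ m, ∃ D, ∀ N, D ≤ N → ∑ n ∈ Finset.range N, starRingEnd ℂ (φ n) * f (m+n) = 0) ∧
      ¬ BddAbove {x : ℝ | ∃ g : ℕ → ℂ, Summable (fun n => ‖g n‖ ^ 2) ∧
          x = (∑' n, ‖f n + ∑ k ∈ Finset.range (n+1), b k * g (n-k)‖ ^ 2) - ∑' n, ‖g n‖ ^ 2} :=
  Pool.Agent.MP_05b6ce_an.Sh.main w hw0 hw1 hw2 Φ hΦ

end Pool.Agent.Results.MP_05b6ce_an.SharpPhi
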